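import Mathlib
import Pool.Agent.Work.MP_123300_co.Defs
import Pool.Agent.Work.MP_123300_co.Rep

set_option autoImplicit false

namespace Pool.Agent.Results.MP_123300_co.NotBounded

open Pool.Agent.Work.MP_123300_co

/-- There is a graph on fourteen vertices that is a NeST graph but not a bounded NeST graph. -/
theorem result : ∃ G : SimpleGraph (Fin 14), IsNeST G ∧ ¬ IsBoundedNeST G :=
  main

end Pool.Agent.Results.MP_123300_co.NotBounded
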